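import Pool.Agent.N411.HYO.LargeGraph

set_option autoImplicit false

/-!
# The Havet–Yu conjecture for all line graphs and `p` at least about half of the degree

`H.lineGraph` is the line graph of `H` (Mathlib): its vertices are the edges of `H`, two different
edges with a common end are adjacent.

Proof.  Let `K` be even and let `G` have a proper colouring with `2 K` colours (types) such that every
vertex has at most `w ≥ 2` neighbours of every type.  The complete graph on the types is taken `w`
times.  The `K` small types get the largest labels and the `K` large types the smallest labels of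
`0, …, N - 1`, `N = w (2 K - 1) + 2 p - s`.  In the first copy the edge `i j` gets the label
`i + j + p` modulo `2 K + 2 p - 1`, cut and spread to the two ends of the label range; the other
copies are coloured by a 1-factorization of the complete graph with `2 K` vertices in which the first
`K - 1` classes join types of the same half (this needs `K` even).  In the second copy the first
`s ≤ K - 1` of these classes do not get labels of their own: a class gets a label close to `0` for the
types at the upper end and a label close to `N - 1` for the types at the lower end; these labels are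
not used by the first copy since `p ≥ K + s`.  The edges between two types form a bipartite graph
with maximum degree at most `w`, which gets the `w` labels of the pair of types (König).

For a line graph `G` of a graph with maximum degree `D` the types are the colours of a proper edge
colouring with `D + 1` colours (Vizing), `w = 2`, and `D + 1 ≤ 2 K ≤ D + 4`.
-/

namespace Pool.Agent.Results.MP_b8729f_co.LineGraphsLargeP

open Pool.Agent.N411.HYO

/-- `TotalLabeling G p l`: the graph `G` has a `(p,1)`-total labeling of span `l`, that is, labels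
`0, …, l` for the vertices (`fV`) and the edges (`fE`) such that adjacent vertices get different
labels, edges sharing an endpoint get different labels, and the labels of a vertex and of an
incident edge differ by at least `p`. -/
def TotalLabeling {V : Type} (G : SimpleGraph V) (p l : ℕ) : Prop :=
  ∃ (fV : V → ℕ) (fE : Sym2 V → ℕ),
    (∀ v, fV v ≤ l) ∧ (∀ e ∈ G.edgeSet, fE e ≤ l) ∧
    (∀ u v, G.Adj u v → fV u ≠ fV v) ∧
    (∀ u v w, G.Adj u v → G.Adj u w → v ≠ w → fE s(u, v) ≠ fE s(u, w)) ∧
    (∀ u v, G.Adj u v → (p : ℤ) ≤ |(fV u : ℤ) - (fE s(u, v) : ℤ)|)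

/-- `Δ` is the maximum degree of `G`. -/
def MaxDegree {V : Type} (G : SimpleGraph V) (Δ : ℕ) : Prop :=
  (∀ v, (G.neighborSet v).ncard ≤ Δ) ∧ ∃ v, (G.neighborSet v).ncard = Δ

theorem lab_total {V : Type} {G : SimpleGraph V} {p N : ℕ} (h : Lab G p N) :
    TotalLabeling G p (N - 1) := by
  obtain ⟨fV, fE, h1, h2, h3, h4, h5⟩ := h
  exact ⟨fV, fE, fun v => Nat.le_sub_one_of_lt (h1 v), fun e he => Nat.le_sub_one_of_lt (h2 e he),
    h3, h4, h5⟩

/-- **The Havet–Yu conjecture for all line graphs, `p` at least about `D / 2`.**

(1) For every finite graph `H` with maximum degree `D`, two adjacent vertices of degree `D` (for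
example, `H` regular) and every `p ≥ D / 2 + 10`, the Havet–Yu conjecture holds for the line graph of
`H`: its maximum degree is `Δ = 2 (D - 1)` and it has a `(p,1)`-total labelling of span
`Δ + 2 p - 1`.

(2) For every finite graph `H` with maximum degree `D` whose line graph has maximum degree `Δ`, and
every `p ≥ D / 2 + 10 + (2 (D - 1) - Δ)`, the line graph of `H` has a `(p,1)`-total labelling of span
`Δ + 2 p - 1`.

(3) Let `K` be even, `w ≥ 2`, `s ≤ K - 1`, `p ≥ K + s` and let `G` be a finite graph with a proper
vertex colouring with `2 K` colours such that every vertex has at most `w` neighbours of every colour.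
Then `G` has a `(p,1)`-total labelling of span `Δ + 2 p - 1`, where `Δ = w (2 K - 1) - s`. -/
theorem result :
    (∀ (V : Type) [Fintype V] (H : SimpleGraph V) (D p : ℕ), MaxDegree H D →
      (∃ x y, H.Adj x y ∧ (H.neighborSet x).ncard = D ∧ (H.neighborSet y).ncard = D) →
      D + 20 ≤ 2 * p →
      ∃ Δ, MaxDegree H.lineGraph Δ ∧ Δ = 2 * (D - 1) ∧
        TotalLabeling H.lineGraph p (Δ + 2 * p - 1)) ∧
    (∀ (V : Type) [Fintype V] (H : SimpleGraph V) (D Δ p : ℕ), MaxDegree H D →
      MaxDegree H.lineGraph Δ → D + 20 + 2 * (2 * (D - 1) - Δ) ≤ 2 * p →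
      TotalLabeling H.lineGraph p (Δ + 2 * p - 1)) ∧
    (∀ (V : Type) [Fintype V] (G : SimpleGraph V) (K w s Δ p : ℕ) (t : V → ℕ), Even K → 2 ≤ w →
      s < K → K + s ≤ p → Δ + s = w * (2 * K - 1) →
      (∀ v, t v < 2 * K) → (∀ u v, G.Adj u v → t u ≠ t v) →
      (∀ v y, {u | G.Adj v u ∧ t u = y}.ncard ≤ w) →
      TotalLabeling G p (Δ + 2 * p - 1)) := by
  refine ⟨?_, ?_, ?_⟩
  · intro V _ H D p hD ⟨x, y, hxy, hx, hy⟩ hp
    have h1 := line_maxdeg H D hD.1 hxy hx hy
    have hD1 : 1 ≤ D := by
      rw [← hx, Nat.one_le_iff_ne_zero, ← Nat.pos_iff_ne_zero, Set.ncard_pos (Set.toFinite _)]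
      exact ⟨y, hxy⟩
    exact ⟨2 * (D - 1), h1, rfl, lab_total (line_large H D _ p hD.1 h1 (by omega))⟩
  · intro V _ H D Δ p hD hΔ hp
    have h0 : 1 ≤ D ∧ Δ ≤ 2 * (D - 1) := by
      obtain ⟨_, ⟨e0, he0⟩, hΔ2⟩ := hΔ
      induction e0 using Sym2.ind with
      | _ x y =>
        have hxy : H.Adj x y := he0
        have h1 := line_degree_at H hxy
        have h2 := hD.1 x
        have h3 := hD.1 y
        have h4 : 1 ≤ (H.neighborSet x).ncard := by
          rw [Nat.one_le_iff_ne_zero, ← Nat.pos_iff_ne_zero, Set.ncard_pos (Set.toFinite _)]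
          exact ⟨y, hxy⟩
        have h5 : (H.lineGraph.neighborSet ⟨s(x, y), hxy⟩).ncard = Δ := hΔ2
        omega
    exact lab_total (line_large H D Δ p hD.1 hΔ (by omega))
  · intro V _ G K w s Δ p t hK hw hs hp hΔ ht hR hfew
    have h1 := large_types G K p s w (Nat.even_iff.1 hK) (by
      obtain ⟨k, hk⟩ := hK
      omega) hs hp hw t ht hR hfew
    have e1 : w * (2 * K - 1) + 2 * p - s = Δ + 2 * p := by omega
    rw [e1] at h1
    exact lab_total h1

end Pool.Agent.Results.MP_b8729f_co.LineGraphsLargeP
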